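import Pool.Agent.W207.SW.SpecS

/-!
# The maximum principle on a small circle

If an entire function is bounded by `M exp (-R L |Im z|)` on the circle of radius `r` about a real
point, then it is at most `e M exp (-R r)` at the centre.
-/

set_option autoImplicit false

namespace W414.SW

open Complex

lemma norm_one_sub_sq (w : ℂ) (hw : ‖w‖ = 1) : ‖1 - w ^ 2‖ = 2 * |w.im| := by
  have h1 : w * (starRingEnd ℂ) w = 1 := by
    rw [Complex.mul_conj, Complex.normSq_eq_norm_sq, hw]; norm_num
  have h2 : (1 : ℂ) - w ^ 2 = w * ((starRingEnd ℂ) w - w) := by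
    rw [mul_sub, h1]; ring
  have h3 : (starRingEnd ℂ) w - w = (((-2 : ℝ) * w.im : ℝ) : ℂ) * Complex.I := by
    apply Complex.ext <;> simp
    ring
  rw [h2, norm_mul, hw, one_mul, h3, norm_mul, Complex.norm_I, mul_one, Complex.norm_real,
    Real.norm_eq_abs, abs_mul]
  norm_num

/-- the theorem -/
theorem cir : W207.SW.S_CIR := by
  intro L r R M ξ f hL hr hR hM hf hξ hb
  set N : ℕ := ⌊R * r⌋₊ with hN
  have hRr : 0 < R * r := mul_pos hR hr
  have hN1 : (N : ℝ) ≤ R * r := Nat.floor_le hRr.le
  have hN2 : R * r < N + 1 := Nat.lt_floor_add_one _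
  have hrC : (r : ℂ) ≠ 0 := by exact_mod_cast hr.ne'
  set F : ℂ → ℂ := fun z => f z * (1 - ((z - ξ) / r) ^ 2) ^ N with hF
  have hFd : Differentiable ℂ F := by
    intro z
    have h1 : DifferentiableAt ℂ (fun z : ℂ => (1 - ((z - ξ) / r) ^ 2) ^ N) z := by fun_prop
    exact (hf z).mul h1
  have hFξ : F ξ = f ξ := by simp [hF]
  have key : ‖F ξ‖ ≤ Real.exp 1 * M * Real.exp (-(R * r)) := by
    apply Complex.norm_le_of_forall_mem_frontier_norm_le (U := Metric.ball ξ r)
      Metric.isBounded_ball hFd.diffContOnCl
    · intro z hz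
      rw [frontier_ball ξ hr.ne'] at hz
      have hz1 : ‖z - ξ‖ = r := by simpa [dist_eq_norm] using hz
      have hw : ‖(z - ξ) / (r : ℂ)‖ = 1 := by
        rw [norm_div, hz1, Complex.norm_real, Real.norm_of_nonneg hr.le, div_self hr.ne']
      have him : |z.im| = r * |((z - ξ) / (r : ℂ)).im| := by
        have : ((z - ξ) / (r : ℂ)).im = z.im / r := by
          rw [Complex.div_ofReal_im, Complex.sub_im, hξ, sub_zero]
        rw [this, abs_div, abs_of_pos hr]
        field_simp
      set s : ℝ := |((z - ξ) / (r : ℂ)).im| with hs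
      have hs0 : 0 ≤ s := abs_nonneg _
      have hfz := hb z hz1
      rw [him] at hfz
      have h2s : 2 * s ≤ Real.exp (L * s - 1) := by
        have h1 := Real.add_one_le_exp (L * s - 1)
        have h2 : 2 * s ≤ L * s := mul_le_mul_of_nonneg_right hL hs0
        linarith
      have hpow : (2 * s) ^ N ≤ Real.exp (N * (L * s - 1)) := by
        calc (2 * s) ^ N ≤ Real.exp (L * s - 1) ^ N := by gcongr
          _ = Real.exp (N * (L * s - 1)) := by rw [← Real.exp_nat_mul]
      have hnorm : ‖F z‖ = ‖f z‖ * (2 * s) ^ N := by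
        simp only [hF]
        rw [norm_mul, norm_pow, norm_one_sub_sq _ hw]
      rw [hnorm]
      calc ‖f z‖ * (2 * s) ^ N
          ≤ (M * Real.exp (-(R * L * (r * s)))) * Real.exp (N * (L * s - 1)) := by
            apply mul_le_mul hfz hpow (by positivity) (by positivity)
        _ = M * Real.exp (-(R * L * (r * s)) + N * (L * s - 1)) := by
            rw [mul_assoc, ← Real.exp_add]
        _ ≤ M * Real.exp (1 + -(R * r)) := by
            apply mul_le_mul_of_nonneg_left _ hM
            apply Real.exp_le_exp.mpr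
            have hLs : 0 ≤ L * s := by positivity
            have := mul_le_mul_of_nonneg_right hN1 hLs
            nlinarith
        _ = Real.exp 1 * M * Real.exp (-(R * r)) := by
            rw [Real.exp_add]; ring
    · exact subset_closure (Metric.mem_ball_self hr)
  rw [hFξ] at key
  exact key

end W414.SW
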